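import Pool.Agent.Lib.MP_a29a94_pr.FE.Main

open Pool.Agent.Lib.MP_a29a94_pr.FE

namespace Pool.Agent.Results.MP_a29a94_pr.FiniteEntropyNotAR

/-- There is a finitely generated solvable group with a symmetric non-degenerate step law of finite
entropy whose random walk is Liouville but not algebraically recurrent. -/
theorem result : ∃ (G : Type) (_ : Group G), Countable G ∧ Group.FG G ∧ Group.IsSolvable G ∧
    ∃ μ : PMF G, SymmetricLaw μ ∧ NondegenerateLaw μ ∧ FiniteEntropy μ ∧ LiouvilleLaw μ ∧
      ¬ AlgebraicallyRecurrent μ :=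
  main

end Pool.Agent.Results.MP_a29a94_pr.FiniteEntropyNotAR
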